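import Pool.Agent.H54.EP.Gauss

/-!
# The closure of the entropy power region is stable under multiplication by `S ↦ max_{i ∈ S} l i`
-/

set_option autoImplicit false

open MeasureTheory ProbabilityTheory Filter Topology

namespace Pool.Agent.H54.EP

open Pool.Agent.Results.MP_04c77c_pr.NotConvex

variable {n : ℕ}

lemma region_pos {v : {S : Finset (Fin n) // S.Nonempty} → ℝ} (hv : v ∈ EntropyPowerRegion n)
    (S : {S : Finset (Fin n) // S.Nonempty}) : 0 < v S := by
  simp only [EntropyPowerRegion, Set.mem_iUnion] at hv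
  obtain ⟨d, -, hv⟩ := hv
  exact gamma_pos hv S

lemma clos_nonneg {v : {S : Finset (Fin n) // S.Nonempty} → ℝ}
    (hv : v ∈ closure (EntropyPowerRegion n)) (S : {S : Finset (Fin n) // S.Nonempty}) :
    0 ≤ v S := by
  have hcl : IsClosed {v : {S : Finset (Fin n) // S.Nonempty} → ℝ | 0 ≤ v S} :=
    isClosed_le continuous_const (continuous_apply S)
  exact closure_minimal (fun w hw => (region_pos hw S).le) hcl hv

/-- the weighted geometric mean -/
noncomputable def gm (t : ℝ) (v w : {S : Finset (Fin n) // S.Nonempty} → ℝ) :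
    {S : Finset (Fin n) // S.Nonempty} → ℝ := fun S => v S ^ (1 - t) * w S ^ t

lemma gm_rat {v w : {S : Finset (Fin n) // S.Nonempty} → ℝ}
    (hv : v ∈ EntropyPowerRegion n) (hw : w ∈ EntropyPowerRegion n) (m : ℕ) (hm : 2 ≤ m) :
    gm (1 / (m : ℝ)) v w ∈ EntropyPowerRegion n := by
  have h := region_rat hv hw (m - 1) 1 (by omega) le_rfl
  convert h using 1
  ext S
  unfold gm
  have h1 : ((m - 1 : ℕ) : ℝ) = m - 1 := by
    rw [Nat.cast_sub (by omega)]
    simp
  have h2 : (m : ℝ) ≠ 0 := by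
    have : 0 < m := by omega
    positivity
  rw [h1]
  push_cast
  have e1 : (m : ℝ) - 1 + 1 = m := by ring
  rw [e1]
  have e2 : 1 - 1 / (m : ℝ) = (m - 1) / m := by field_simp
  rw [e2]

lemma gm_clos {v w : {S : Finset (Fin n) // S.Nonempty} → ℝ}
    (hv : v ∈ closure (EntropyPowerRegion n)) (hw : w ∈ closure (EntropyPowerRegion n)) (m : ℕ)
    (hm : 2 ≤ m) : gm (1 / (m : ℝ)) v w ∈ closure (EntropyPowerRegion n) := by
  have hm0 : (0 : ℝ) ≤ 1 / m := by positivity
  have hm1 : (0 : ℝ) ≤ 1 - 1 / m := by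
    have : (2 : ℝ) ≤ m := by exact_mod_cast hm
    have : 1 / (m : ℝ) ≤ 1 := by
      rw [div_le_one (by linarith)]
      linarith
    linarith
  have hc : Continuous (fun z : ({S : Finset (Fin n) // S.Nonempty} → ℝ) ×
      ({S : Finset (Fin n) // S.Nonempty} → ℝ) => gm (1 / (m : ℝ)) z.1 z.2) := by
    unfold gm
    refine continuous_pi fun S => ?_
    have c1 : Continuous (fun z : ({S : Finset (Fin n) // S.Nonempty} → ℝ) ×
      ({S : Finset (Fin n) // S.Nonempty} → ℝ) => z.1 S) := (continuous_apply S).comp continuous_fst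
    have c2 : Continuous (fun z : ({S : Finset (Fin n) // S.Nonempty} → ℝ) ×
      ({S : Finset (Fin n) // S.Nonempty} → ℝ) => z.2 S) := (continuous_apply S).comp continuous_snd
    exact (c1.rpow_const fun _ => Or.inr hm1).mul (c2.rpow_const fun _ => Or.inr hm0)
  exact map_mem_closure₂ hc hv hw fun a ha b hb => gm_rat ha hb m hm

/-- the limit of `(∑_{i ∈ S} l i ^ m)^(1/m)` -/
lemma lim_max (l : Fin n → ℝ) (hl : ∀ i, 0 < l i) (S : Finset (Fin n)) (hS : S.Nonempty) :
    Tendsto (fun m : ℕ => (∑ i ∈ S, l i ^ m) ^ (1 / (m : ℝ))) atTop (𝓝 (S.sup' hS l)) := by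
  set M := S.sup' hS l with hM
  obtain ⟨j, hj, hjM⟩ := S.exists_mem_eq_sup' hS l
  have hM0 : 0 < M := by rw [hM, hjM]; exact hl j
  have hcard : (0 : ℝ) < S.card := by exact_mod_cast hS.card_pos
  have lo : ∀ m : ℕ, 1 ≤ m → M ≤ (∑ i ∈ S, l i ^ m) ^ (1 / (m : ℝ)) := by
    intro m hm
    have hm0 : (m : ℝ) ≠ 0 := by positivity
    have h1 : M ^ m ≤ ∑ i ∈ S, l i ^ m := by
      rw [hM, hjM]
      exact Finset.single_le_sum (f := fun i => l i ^ m) (fun i _ => (pow_pos (hl i) m).le) hj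
    calc M = (M ^ m) ^ (1 / (m : ℝ)) := by
          rw [← Real.rpow_natCast, ← Real.rpow_mul hM0.le, mul_one_div_cancel hm0, Real.rpow_one]
      _ ≤ _ := Real.rpow_le_rpow (by positivity) h1 (by positivity)
  have up : ∀ m : ℕ, 1 ≤ m → (∑ i ∈ S, l i ^ m) ^ (1 / (m : ℝ)) ≤
      (S.card : ℝ) ^ (1 / (m : ℝ)) * M := by
    intro m hm
    have hm0 : (m : ℝ) ≠ 0 := by positivity
    have h1 : ∑ i ∈ S, l i ^ m ≤ S.card * M ^ m := by
      rw [← nsmul_eq_mul]
      apply Finset.sum_le_card_nsmul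
      intro i hi
      exact pow_le_pow_left₀ (hl i).le (Finset.le_sup' l hi) m
    calc (∑ i ∈ S, l i ^ m) ^ (1 / (m : ℝ)) ≤ (S.card * M ^ m) ^ (1 / (m : ℝ)) :=
          Real.rpow_le_rpow (Finset.sum_nonneg fun i _ => (pow_pos (hl i) m).le) h1 (by positivity)
      _ = (S.card : ℝ) ^ (1 / (m : ℝ)) * M := by
          rw [Real.mul_rpow hcard.le (by positivity)]
          congr 1
          rw [← Real.rpow_natCast, ← Real.rpow_mul hM0.le, mul_one_div_cancel hm0, Real.rpow_one]
  have lim : Tendsto (fun m : ℕ => (S.card : ℝ) ^ (1 / (m : ℝ)) * M) atTop (𝓝 M) := by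
    have h0 : Tendsto (fun m : ℕ => 1 / (m : ℝ)) atTop (𝓝 0) := tendsto_one_div_atTop_nhds_zero_nat
    have h1 : Tendsto (fun m : ℕ => (S.card : ℝ) ^ (1 / (m : ℝ))) atTop (𝓝 ((S.card : ℝ) ^ (0 : ℝ))) :=
      (Real.continuousAt_const_rpow hcard.ne').tendsto.comp h0
    rw [Real.rpow_zero] at h1
    simpa using h1.mul_const M
  refine tendsto_of_tendsto_of_tendsto_of_le_of_le' tendsto_const_nhds lim ?_ ?_
  · filter_upwards [eventually_ge_atTop 1] with m hm using lo m hm
  · filter_upwards [eventually_ge_atTop 1] with m hm using up m hm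

/-- the closure is stable under multiplication by `S ↦ max_{i ∈ S} l i` -/
lemma clos_max {v : {S : Finset (Fin n) // S.Nonempty} → ℝ}
    (hv : v ∈ closure (EntropyPowerRegion n)) (l : Fin n → ℝ) (hl : ∀ i, 0 < l i) :
    (fun S : {S : Finset (Fin n) // S.Nonempty} => v S * S.1.sup' S.2 l) ∈
      closure (EntropyPowerRegion n) := by
  have h1 : ∀ m : ℕ, 2 ≤ m → gm (1 / (m : ℝ)) v
      (fun S : {S : Finset (Fin n) // S.Nonempty} => ∑ i ∈ S.1, l i ^ m) ∈
      closure (EntropyPowerRegion n) := by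
    intro m hm
    exact gm_clos hv (subset_closure (region_gauss _ fun i => pow_pos (hl i) m)) m hm
  refine isClosed_closure.mem_of_tendsto (b := atTop) (f := fun m : ℕ => gm (1 / (m : ℝ)) v
      (fun S : {S : Finset (Fin n) // S.Nonempty} => ∑ i ∈ S.1, l i ^ m)) ?_ ?_
  · rw [tendsto_pi_nhds]
    intro S
    unfold gm
    refine Tendsto.mul ?_ (lim_max l hl S.1 S.2)
    have h0 : Tendsto (fun m : ℕ => 1 - 1 / (m : ℝ)) atTop (𝓝 (1 - 0)) :=
      tendsto_const_nhds.sub tendsto_one_div_atTop_nhds_zero_nat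
    rw [sub_zero] at h0
    have h2 := (Real.continuousAt_const_rpow' (a := v S) (b := 1) one_ne_zero).tendsto.comp h0
    rw [Real.rpow_one] at h2
    exact h2
  · filter_upwards [eventually_ge_atTop 2] with m hm using h1 m hm

/-- nonnegative weights -/
lemma clos_gauss (p : Fin n → ℝ) (hp : ∀ i, 0 ≤ p i) :
    (fun S : {S : Finset (Fin n) // S.Nonempty} => ∑ i ∈ S.1, p i) ∈
      closure (EntropyPowerRegion n) := by
  refine isClosed_closure.mem_of_tendsto (b := atTop) (f := fun m : ℕ =>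
    (fun S : {S : Finset (Fin n) // S.Nonempty} => ∑ i ∈ S.1, (p i + 1 / ((m : ℝ) + 1)))) ?_ ?_
  · rw [tendsto_pi_nhds]
    intro S
    apply tendsto_finsetSum
    intro i _
    have := tendsto_one_div_add_atTop_nhds_zero_nat (𝕜 := ℝ)
    simpa using this.const_add (p i)
  · exact Eventually.of_forall fun m => subset_closure (region_gauss _ fun i =>
      add_pos_of_nonneg_of_pos (hp i) (by positivity))

end Pool.Agent.H54.EP
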