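import Pool.Agent.H54.EP.Cv

/-!
# Concatenation of random vectors
-/

set_option autoImplicit false

open MeasureTheory ProbabilityTheory ENNReal

namespace Pool.Agent.H54.EP

open Pool.Agent.Results.MP_04c77c_pr.NotConvex

/-- concatenation of vectors -/
noncomputable def app (d d' : ℕ) : (Fin d → ℝ) × (Fin d' → ℝ) ≃ᵐ (Fin (d + d') → ℝ) :=
  (MeasurableEquiv.sumPiEquivProdPi (fun _ : Fin d ⊕ Fin d' => ℝ)).symm.trans
    (MeasurableEquiv.piCongrLeft (fun _ : Fin (d + d') => ℝ) finSumFinEquiv)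

lemma app_mp (d d' : ℕ) : MeasurePreserving (app d d')
    ((volume : Measure (Fin d → ℝ)).prod (volume : Measure (Fin d' → ℝ))) volume := by
  have h1 := volume_measurePreserving_sumPiEquivProdPi_symm (fun _ : Fin d ⊕ Fin d' => ℝ)
  have h2 := volume_measurePreserving_piCongrLeft (fun _ : Fin (d + d') => ℝ)
    (finSumFinEquiv (m := d) (n := d'))
  exact h2.comp h1

lemma app_apply (d d' : ℕ) (x : (Fin d → ℝ) × (Fin d' → ℝ)) (k : Fin (d + d')) :
    app d d' x k = Sum.elim x.1 x.2 (finSumFinEquiv.symm k) := by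
  obtain ⟨j, rfl⟩ := finSumFinEquiv.surjective k
  rw [Equiv.symm_apply_apply]
  unfold app
  simp only [MeasurableEquiv.trans_apply]
  rw [MeasurableEquiv.coe_piCongrLeft, Equiv.piCongrLeft_apply_apply]
  cases j <;> rfl

lemma app_add (d d' : ℕ) (x y : (Fin d → ℝ) × (Fin d' → ℝ)) :
    app d d' (x + y) = app d d' x + app d d' y := by
  ext k
  rw [Pi.add_apply, app_apply, app_apply, app_apply]
  rcases finSumFinEquiv.symm k with j | j <;> rfl

lemma app_zero (d d' : ℕ) : app d d' 0 = 0 := by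
  ext k
  rw [app_apply]
  rcases finSumFinEquiv.symm k with j | j <;> rfl

/-- concatenation as an additive map -/
noncomputable def appHom (d d' : ℕ) : (Fin d → ℝ) × (Fin d' → ℝ) →+ (Fin (d + d') → ℝ) where
  toFun := app d d'
  map_zero' := app_zero d d'
  map_add' := app_add d d'

lemma diffEntropy_eq {d : ℕ} (μ : Measure (Fin d → ℝ)) : diffEntropy μ = He volume μ := rfl

lemma finiteEntropy_eq {d : ℕ} (μ : Measure (Fin d → ℝ)) : FiniteEntropy μ = Fe volume μ := rfl

lemma fin_app {d d' : ℕ} {α : Measure (Fin d → ℝ)} {β : Measure (Fin d' → ℝ)}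
    [IsProbabilityMeasure α] [IsProbabilityMeasure β] (hα : FiniteEntropy α)
    (hβ : FiniteEntropy β) : FiniteEntropy ((α.prod β).map (app d d')) := by
  rw [finiteEntropy_eq] at *
  rw [← (app_mp d d').map_eq]
  exact fe_map _ (fe_prod hα hβ)

lemma ent_app {d d' : ℕ} {α : Measure (Fin d → ℝ)} {β : Measure (Fin d' → ℝ)}
    [IsProbabilityMeasure α] [IsProbabilityMeasure β] (hα : FiniteEntropy α)
    (hβ : FiniteEntropy β) :
    diffEntropy ((α.prod β).map (app d d')) = diffEntropy α + diffEntropy β := by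
  rw [finiteEntropy_eq] at *
  rw [diffEntropy_eq, diffEntropy_eq, diffEntropy_eq, ← (app_mp d d').map_eq, he_map,
    he_prod hα hβ]

lemma gamma_concat {d d' n : ℕ} (hd : 1 ≤ d) (hd' : 1 ≤ d')
    {v w : {S : Finset (Fin n) // S.Nonempty} → ℝ} (hv : v ∈ Gamma d n) (hw : w ∈ Gamma d' n) :
    (fun S => v S ^ ((d : ℝ) / (d + d')) * w S ^ ((d' : ℝ) / (d + d'))) ∈ Gamma (d + d') n := by
  rw [gamma_iff] at *
  obtain ⟨μ, hμ, hfin, hval⟩ := hv
  obtain ⟨ν, hν, hfin', hval'⟩ := hw
  have hpr : ∀ i, IsProbabilityMeasure (((μ i).prod (ν i)).map (appHom d d')) := fun i =>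
    Measure.isProbabilityMeasure_map (app d d').measurable.aemeasurable
  have := measAdd_prod (E := Fin d → ℝ) (F := Fin d' → ℝ)
  have key : ∀ S, cv (fun i => ((μ i).prod (ν i)).map (appHom d d')) S =
      ((cv μ S).prod (cv ν S)).map (app d d') := by
    intro S
    rw [cv_map (fun i => (μ i).prod (ν i)) (appHom d d') (app d d').measurable, cv_prod]
    rfl
  refine ⟨fun i => ((μ i).prod (ν i)).map (appHom d d'), hpr, ?_, ?_⟩
  · intro S hS
    rw [key]
    exact fin_app (hfin S hS) (hfin' S hS)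
  · intro S
    rw [key, hval, hval']
    unfold entropyPower
    rw [ent_app (hfin S.1 S.2) (hfin' S.1 S.2), ← Real.exp_mul, ← Real.exp_mul, ← Real.exp_add]
    congr 1
    have h1 : (d : ℝ) ≠ 0 := by positivity
    have h2 : (d' : ℝ) ≠ 0 := by positivity
    have h3 : (d : ℝ) + d' ≠ 0 := by positivity
    push_cast
    field_simp

lemma gamma_pos {d n : ℕ} {v : {S : Finset (Fin n) // S.Nonempty} → ℝ} (hv : v ∈ Gamma d n)
    (S : {S : Finset (Fin n) // S.Nonempty}) : 0 < v S := by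
  rw [gamma_iff] at hv
  obtain ⟨μ, hμ, hfin, hval⟩ := hv
  rw [hval]
  exact Real.exp_pos _

lemma gamma_copies {d n : ℕ} (hd : 1 ≤ d) {v : {S : Finset (Fin n) // S.Nonempty} → ℝ}
    (hv : v ∈ Gamma d n) (m : ℕ) (hm : 1 ≤ m) : v ∈ Gamma (m * d) n := by
  induction m, hm using Nat.le_induction with
  | base => rwa [one_mul]
  | succ m hm ih =>
    have h := gamma_concat (Nat.mul_pos hm hd) hd ih hv
    rw [add_one_mul]
    convert h using 1
    ext S
    rw [← Real.rpow_add (gamma_pos hv S)]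
    have h1 : (d : ℝ) ≠ 0 := by positivity
    have h2 : (m : ℝ) ≠ 0 := by positivity
    push_cast
    have : (m * d : ℝ) / (m * d + d) + d / (m * d + d) = 1 := by
      field_simp
    rw [this, Real.rpow_one]

lemma region_rat {n : ℕ} {v w : {S : Finset (Fin n) // S.Nonempty} → ℝ}
    (hv : v ∈ EntropyPowerRegion n) (hw : w ∈ EntropyPowerRegion n) (a b : ℕ) (ha : 1 ≤ a)
    (hb : 1 ≤ b) :
    (fun S => v S ^ ((a : ℝ) / (a + b)) * w S ^ ((b : ℝ) / (a + b))) ∈ EntropyPowerRegion n := by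
  simp only [EntropyPowerRegion, Set.mem_iUnion] at *
  obtain ⟨d, hd, hv⟩ := hv
  obtain ⟨d', hd', hw⟩ := hw
  have h1 := gamma_copies hd hv (a * d') (Nat.mul_pos ha hd')
  have h2 := gamma_copies hd' hw (b * d) (Nat.mul_pos hb hd)
  have h3 := gamma_concat (Nat.mul_pos (Nat.mul_pos ha hd') hd)
    (Nat.mul_pos (Nat.mul_pos hb hd) hd') h1 h2
  refine ⟨a * d' * d + b * d * d', ?_, ?_⟩
  · have := Nat.mul_pos (Nat.mul_pos ha hd') hd
    omega
  · convert h3 using 1
    ext S
    have e1 : (d : ℝ) ≠ 0 := by positivity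
    have e2 : (d' : ℝ) ≠ 0 := by positivity
    have e3 : (a : ℝ) ≠ 0 := by positivity
    have e4 : (b : ℝ) ≠ 0 := by positivity
    have e5 : (a : ℝ) + b ≠ 0 := by positivity
    have x1 : (a : ℝ) / (a + b) = ((a * d' * d : ℕ) : ℝ) / ((a * d' * d : ℕ) + (b * d * d' : ℕ)) := by
      push_cast
      have : (a * d' * d + b * d * d' : ℝ) = d * d' * (a + b) := by ring
      rw [this]
      field_simp
    have x2 : (b : ℝ) / (a + b) = ((b * d * d' : ℕ) : ℝ) / ((a * d' * d : ℕ) + (b * d * d' : ℕ)) := by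
      push_cast
      have : (a * d' * d + b * d * d' : ℝ) = d * d' * (a + b) := by ring
      rw [this]
      field_simp
    rw [x1, x2]

end Pool.Agent.H54.EP
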