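import Pool.Agent.H54.EP.Ent

/-!
# Laws of subset sums in terms of the laws of the summands
-/

set_option autoImplicit false

open MeasureTheory ProbabilityTheory ENNReal

namespace Pool.Agent.H54.EP

open Pool.Agent.Results.MP_04c77c_pr.NotConvex

section
variable {E F : Type*} [MeasurableSpace E] [MeasurableSpace F] [AddCommMonoid E]
  [AddCommMonoid F] [MeasurableAdd₂ E] [MeasurableAdd₂ F] {n : ℕ}

/-- law of the subset sum `∑_{i ∈ S} x_i`, the `x_i` independent with laws `μ i` -/
noncomputable def cv (μ : Fin n → Measure E) (S : Finset (Fin n)) : Measure E :=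
  (Measure.pi μ).map (fun x => ∑ i ∈ S, x i)

variable (μ : Fin n → Measure E) [∀ i, IsProbabilityMeasure (μ i)]
  (ν : Fin n → Measure F) [∀ i, IsProbabilityMeasure (ν i)]

lemma meas_sum (S : Finset (Fin n)) : Measurable (fun x : Fin n → E => ∑ i ∈ S, x i) :=
  Finset.measurable_sum _ (fun j _ => measurable_pi_apply j)

instance cv_prob (S : Finset (Fin n)) : IsProbabilityMeasure (cv μ S) :=
  Measure.isProbabilityMeasure_map (meas_sum S).aemeasurable

lemma cv_empty : cv μ ∅ = Measure.dirac 0 := by
  simp [cv, Measure.map_const]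

lemma cv_insert {i : Fin n} {S : Finset (Fin n)} (hi : i ∉ S) :
    cv μ (insert i S) = μ i ∗ cv μ S := by
  have hind : iIndepFun (fun (i : Fin n) (x : Fin n → E) => x i) (Measure.pi μ) :=
    iIndepFun_pi (μ := μ) (X := fun i (x : E) => x) (fun i => aemeasurable_id)
  have hX : ∀ i, Measurable (fun x : Fin n → E => x i) := fun i => measurable_pi_apply i
  have h1 : IndepFun (fun x : Fin n → E => x i) (fun x => ∑ j ∈ S, x j) (Measure.pi μ) := by
    have := (hind.indepFun_finsetSum_of_notMem hX hi).symm
    convert this using 1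
    ext ω
    simp
  have := h1.map_add_eq_map_conv_map (hX i) (meas_sum S)
  have e : (Measure.pi μ).map (fun x : Fin n → E => x i) = μ i :=
    (measurePreserving_eval μ i).map_eq
  rw [e] at this
  unfold cv
  rw [← this]
  congr 1
  ext ω
  simp [Finset.sum_insert hi]

lemma cv_singleton (i : Fin n) : cv μ {i} = μ i := by
  rw [← insert_empty_eq, cv_insert μ (Finset.notMem_empty i), cv_empty]
  exact Measure.conv_dirac_zero _

omit [AddCommMonoid E] [AddCommMonoid F] [MeasurableAdd₂ E] [MeasurableAdd₂ F] in
lemma measAdd_prod [AddCommMonoid E] [AddCommMonoid F] [MeasurableAdd₂ E] [MeasurableAdd₂ F] :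
    MeasurableAdd₂ (E × F) := by
  refine ⟨?_⟩
  have h1 : Measurable (fun z : (E × F) × (E × F) => z.1.1 + z.2.1) :=
    (measurable_fst.comp measurable_fst).add (measurable_fst.comp measurable_snd)
  have h2 : Measurable (fun z : (E × F) × (E × F) => z.1.2 + z.2.2) :=
    (measurable_snd.comp measurable_fst).add (measurable_snd.comp measurable_snd)
  exact h1.prodMk h2

lemma conv_prod_prod (α γ : Measure E) (β δ : Measure F) [IsProbabilityMeasure α]
    [IsProbabilityMeasure β] [IsProbabilityMeasure γ] [IsProbabilityMeasure δ] :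
    (α.prod β) ∗ (γ.prod δ) = (α ∗ γ).prod (β ∗ δ) := by
  symm
  apply Measure.prod_eq
  intro s t hs ht
  have := measAdd_prod (E := E) (F := F)
  have hm : Measurable (fun z : (E × F) × (E × F) => z.1 + z.2) := by fun_prop
  have hm1 : Measurable (fun z : E × E => z.1 + z.2) := by fun_prop
  have hm2 : Measurable (fun z : F × F => z.1 + z.2) := by fun_prop
  rw [Measure.conv, Measure.map_apply hm (hs.prod ht), Measure.prod_apply (hm (hs.prod ht)),
    Measure.conv, Measure.map_apply hm1 hs, Measure.prod_apply (hm1 hs),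
    Measure.conv, Measure.map_apply hm2 ht, Measure.prod_apply (hm2 ht)]
  rw [← lintegral_prod_mul]
  · congr 1
    ext z
    rw [← Measure.prod_prod]
    congr 1
  · exact (measurable_measure_prodMk_left (hm1 hs)).aemeasurable
  · exact (measurable_measure_prodMk_left (hm2 ht)).aemeasurable

lemma cv_prod (S : Finset (Fin n)) :
    cv (fun i => (μ i).prod (ν i)) S = (cv μ S).prod (cv ν S) := by
  have := measAdd_prod (E := E) (F := F)
  induction S using Finset.induction_on with
  | empty => rw [cv_empty, cv_empty, cv_empty, Measure.dirac_prod_dirac]; rfl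
  | insert i S hi ih => rw [cv_insert _ hi, cv_insert _ hi, cv_insert _ hi, ih, conv_prod_prod]

lemma cv_map (f : E →+ F) (hf : Measurable f) (S : Finset (Fin n)) :
    have : ∀ i, IsProbabilityMeasure ((μ i).map f) := fun i =>
      Measure.isProbabilityMeasure_map hf.aemeasurable
    cv (fun i => (μ i).map f) S = (cv μ S).map f := by
  intro h
  induction S using Finset.induction_on with
  | empty => rw [cv_empty, cv_empty, Measure.map_dirac' hf, map_zero]
  | insert i S hi ih =>
    rw [cv_insert _ hi, cv_insert _ hi, ih, Measure.map_conv_addMonoidHom]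
    exact hf

end

lemma sumLaw_eq {d n : ℕ} {Ω : Type} [MeasurableSpace Ω] {P : Measure Ω} [IsProbabilityMeasure P]
    {X : Fin n → Ω → (Fin d → ℝ)} (hX : ∀ i, Measurable (X i)) (hind : iIndepFun X P)
    (S : Finset (Fin n)) : sumLaw P X S = cv (fun i => P.map (X i)) S := by
  have hp : ∀ i, IsProbabilityMeasure (P.map (X i)) := fun i =>
    Measure.isProbabilityMeasure_map (hX i).aemeasurable
  induction S using Finset.induction_on with
  | empty => rw [cv_empty]; simp [sumLaw, Measure.map_const]
  | insert i S hi ih => rw [cv_insert _ hi, sumLaw_insert hX hind hi, ih]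

lemma gamma_iff {d n : ℕ} {v : {S : Finset (Fin n) // S.Nonempty} → ℝ} :
    v ∈ Gamma d n ↔ ∃ μ : Fin n → Measure (Fin d → ℝ), (∀ i, IsProbabilityMeasure (μ i)) ∧
      (∀ S : Finset (Fin n), S.Nonempty → FiniteEntropy (cv μ S)) ∧
      ∀ S : {S : Finset (Fin n) // S.Nonempty}, v S = entropyPower (cv μ S.1) := by
  constructor
  · rintro ⟨Ω, mΩ, P, X, hP, hX, hind, hfin, hval⟩
    refine ⟨fun i => P.map (X i), fun i => Measure.isProbabilityMeasure_map (hX i).aemeasurable,
      ?_, ?_⟩
    · intro S hS
      rw [← sumLaw_eq hX hind]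
      exact hfin S hS
    · intro S
      rw [← sumLaw_eq hX hind]
      exact hval S
  · rintro ⟨μ, hμ, hfin, hval⟩
    exact ⟨(Fin n → (Fin d → ℝ)), inferInstance, Measure.pi μ, fun i x => x i, inferInstance,
      fun i => measurable_pi_apply i,
      iIndepFun_pi (μ := μ) (X := fun i (x : Fin d → ℝ) => x) (fun i => aemeasurable_id),
      hfin, hval⟩

end Pool.Agent.H54.EP
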