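import Pool.Agent.Results.MP_04c77c_pr.NotConvex

/-!
# Relative entropy with respect to a reference measure: products and measurable equivalences
-/

set_option autoImplicit false

open MeasureTheory ProbabilityTheory ENNReal

namespace Pool.Agent.H54.EP

open Pool.Agent.Results.MP_04c77c_pr.NotConvex

section
variable {E F : Type*} [MeasurableSpace E] [MeasurableSpace F]

/-- entropy of `μ` with respect to `ν` -/
noncomputable def He (ν μ : Measure E) : ℝ :=
  -∫ x, (μ.rnDeriv ν x).toReal * Real.log (μ.rnDeriv ν x).toReal ∂ν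

/-- finite entropy of `μ` with respect to `ν` -/
def Fe (ν μ : Measure E) : Prop :=
  μ ≪ ν ∧ Integrable (fun x => (μ.rnDeriv ν x).toReal * Real.log (μ.rnDeriv ν x).toReal) ν

lemma fe_iff {ν μ : Measure E} [SigmaFinite ν] [SigmaFinite μ] :
    Fe ν μ ↔ μ ≪ ν ∧ Integrable (fun x => Real.log (μ.rnDeriv ν x).toReal) μ := by
  unfold Fe
  constructor
  · rintro ⟨h1, h2⟩
    exact ⟨h1, (integrable_toReal_rnDeriv_mul_iff h1).1 h2⟩
  · rintro ⟨h1, h2⟩
    exact ⟨h1, (integrable_toReal_rnDeriv_mul_iff h1).2 h2⟩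

lemma he_eq {ν μ : Measure E} [SigmaFinite ν] [SigmaFinite μ] (h : μ ≪ ν) :
    He ν μ = -∫ x, Real.log (μ.rnDeriv ν x).toReal ∂μ := by
  unfold He
  rw [integral_toReal_rnDeriv_mul h]

lemma he_map (e : E ≃ᵐ F) {ν μ : Measure E} [SigmaFinite ν] [SigmaFinite μ] :
    He (ν.map e) (μ.map e) = He ν μ := by
  have h := e.measurableEmbedding.rnDeriv_map μ ν
  unfold He
  rw [integral_map_equiv]
  congr 1
  apply integral_congr_ae
  filter_upwards [h] with x hx
  rw [hx]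

lemma fe_map (e : E ≃ᵐ F) {ν μ : Measure E} [SigmaFinite ν] [SigmaFinite μ] (h : Fe ν μ) :
    Fe (ν.map e) (μ.map e) := by
  have h1 := e.measurableEmbedding.rnDeriv_map μ ν
  refine ⟨h.1.map e.measurable, ?_⟩
  rw [integrable_map_equiv e]
  refine h.2.congr ?_
  filter_upwards [h1] with x hx
  simp only [Function.comp_apply]
  rw [hx]

lemma rn_prod {ν μ : Measure E} {ν' μ' : Measure F} [SigmaFinite ν] [SigmaFinite μ]
    [SigmaFinite ν'] [SigmaFinite μ'] (h : μ ≪ ν) (h' : μ' ≪ ν') :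
    (μ.prod μ').rnDeriv (ν.prod ν') =ᵐ[ν.prod ν'] fun z => μ.rnDeriv ν z.1 * μ'.rnDeriv ν' z.2 := by
  have e : μ.prod μ' = (ν.prod ν').withDensity (fun z => μ.rnDeriv ν z.1 * μ'.rnDeriv ν' z.2) := by
    rw [← prod_withDensity (Measure.measurable_rnDeriv _ _) (Measure.measurable_rnDeriv _ _),
      Measure.withDensity_rnDeriv_eq _ _ h, Measure.withDensity_rnDeriv_eq _ _ h']
  rw [e]
  have hm : Measurable (fun z : E × F => μ.rnDeriv ν z.1 * μ'.rnDeriv ν' z.2) := by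
    have h1 : Measurable (fun z : E × F => μ.rnDeriv ν z.1) :=
      (Measure.measurable_rnDeriv μ ν).comp measurable_fst
    have h2 : Measurable (fun z : E × F => μ'.rnDeriv ν' z.2) :=
      (Measure.measurable_rnDeriv μ' ν').comp measurable_snd
    exact h1.mul h2
  exact Measure.rnDeriv_withDensity _ hm

lemma log_prod {ν μ : Measure E} {ν' μ' : Measure F} [SigmaFinite ν]
    [SigmaFinite ν'] [IsProbabilityMeasure μ] [IsProbabilityMeasure μ'] (h : μ ≪ ν) (h' : μ' ≪ ν') :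
    (fun z => Real.log ((μ.prod μ').rnDeriv (ν.prod ν') z).toReal) =ᵐ[μ.prod μ'] fun z =>
      Real.log (μ.rnDeriv ν z.1).toReal + Real.log (μ'.rnDeriv ν' z.2).toReal := by
  have h1 := (h.prod h').ae_le (rn_prod h h')
  have a1 : ∀ᵐ x ∂μ, 0 < μ.rnDeriv ν x ∧ μ.rnDeriv ν x < ∞ :=
    (Measure.rnDeriv_pos h).and (h.ae_le (Measure.rnDeriv_lt_top _ _))
  have a2 : ∀ᵐ x ∂μ', 0 < μ'.rnDeriv ν' x ∧ μ'.rnDeriv ν' x < ∞ :=
    (Measure.rnDeriv_pos h').and (h'.ae_le (Measure.rnDeriv_lt_top _ _))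
  have b1 : ∀ᵐ z ∂(μ.prod μ'), 0 < μ.rnDeriv ν z.1 ∧ μ.rnDeriv ν z.1 < ∞ :=
    Measure.quasiMeasurePreserving_fst.ae a1
  have b2 : ∀ᵐ z ∂(μ.prod μ'), 0 < μ'.rnDeriv ν' z.2 ∧ μ'.rnDeriv ν' z.2 < ∞ :=
    Measure.quasiMeasurePreserving_snd.ae a2
  filter_upwards [h1, b1, b2] with z hz c1 c2
  rw [hz, toReal_mul, Real.log_mul (toReal_pos c1.1.ne' c1.2.ne).ne'
    (toReal_pos c2.1.ne' c2.2.ne).ne']

lemma fe_prod {ν μ : Measure E} {ν' μ' : Measure F} [SigmaFinite ν]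
    [SigmaFinite ν'] [IsProbabilityMeasure μ] [IsProbabilityMeasure μ'] (h : Fe ν μ)
    (h' : Fe ν' μ') : Fe (ν.prod ν') (μ.prod μ') := by
  rw [fe_iff] at h h' ⊢
  refine ⟨h.1.prod h'.1, ?_⟩
  have i1 : Integrable (fun z : E × F => Real.log (μ.rnDeriv ν z.1).toReal) (μ.prod μ') :=
    h.2.comp_fst μ'
  have i2 : Integrable (fun z : E × F => Real.log (μ'.rnDeriv ν' z.2).toReal) (μ.prod μ') :=
    h'.2.comp_snd μ
  exact (i1.add i2).congr (log_prod h.1 h'.1).symm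

lemma he_prod {ν μ : Measure E} {ν' μ' : Measure F} [SigmaFinite ν]
    [SigmaFinite ν'] [IsProbabilityMeasure μ] [IsProbabilityMeasure μ'] (h : Fe ν μ)
    (h' : Fe ν' μ') : He (ν.prod ν') (μ.prod μ') = He ν μ + He ν' μ' := by
  have hh := h.1
  have hh' := h'.1
  rw [fe_iff] at h h'
  have i1 : Integrable (fun z : E × F => Real.log (μ.rnDeriv ν z.1).toReal) (μ.prod μ') :=
    h.2.comp_fst μ'
  have i2 : Integrable (fun z : E × F => Real.log (μ'.rnDeriv ν' z.2).toReal) (μ.prod μ') :=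
    h'.2.comp_snd μ
  rw [he_eq hh, he_eq hh', he_eq (hh.prod hh'), integral_congr_ae (log_prod hh hh'),
    integral_add i1 i2,
    integral_fun_fst (μ := μ) (ν := μ') (fun x => Real.log (μ.rnDeriv ν x).toReal),
    integral_fun_snd (μ := μ) (ν := μ') (fun x => Real.log (μ'.rnDeriv ν' x).toReal)]
  simp
  ring

end

end Pool.Agent.H54.EP
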