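import Pool.Agent.H54.EP.Concat

/-!
# Gaussian points of the entropy power region
-/

set_option autoImplicit false

open MeasureTheory ProbabilityTheory ENNReal

namespace Pool.Agent.H54.EP

open Pool.Agent.Results.MP_04c77c_pr.NotConvex

lemma gauss_log {v : NNReal} (hv : v ≠ 0) :
    (fun x => Real.log ((gaussianReal 0 v).rnDeriv volume x).toReal) =ᵐ[gaussianReal 0 v]
      fun x => -(1 / 2 * Real.log (2 * Real.pi * v)) - x ^ 2 / (2 * v) := by
  have h1 := (gaussianReal_absolutelyContinuous 0 hv).ae_le (rnDeriv_gaussianReal 0 v)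
  filter_upwards [h1] with x hx
  have hv' : (0 : ℝ) < v := by
    have := pos_iff_ne_zero.2 hv
    exact_mod_cast this
  have h2 : 0 < Real.sqrt (2 * Real.pi * v) := Real.sqrt_pos.2 (by positivity)
  rw [hx, toReal_gaussianPDF, gaussianPDFReal, Real.log_mul (by positivity) (Real.exp_pos _).ne',
    Real.log_exp, Real.log_inv, Real.log_sqrt (by positivity)]
  simp only [sub_zero]
  ring

lemma gauss_sq (v : NNReal) : ∫ x, x ^ 2 ∂(gaussianReal 0 v) = v := by
  have h := variance_id_gaussianReal (μ := 0) (v := v)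
  rw [variance_eq_integral measurable_id.aemeasurable] at h
  simpa using h

lemma gauss_sq_int (v : NNReal) : Integrable (fun x : ℝ => x ^ 2) (gaussianReal 0 v) := by
  have h := memLp_id_gaussianReal (μ := 0) (v := v) 2
  have := h.integrable_sq
  simpa using this

lemma gauss_fe {v : NNReal} (hv : v ≠ 0) : Fe volume (gaussianReal 0 v) := by
  rw [fe_iff]
  refine ⟨gaussianReal_absolutelyContinuous 0 hv, ?_⟩
  refine Integrable.congr ?_ (gauss_log hv).symm
  exact (integrable_const _).sub ((gauss_sq_int v).div_const _)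

lemma gauss_he {v : NNReal} (hv : v ≠ 0) :
    He volume (gaussianReal 0 v) = 1 / 2 * Real.log (2 * Real.pi * v) + 1 / 2 := by
  rw [he_eq (gaussianReal_absolutelyContinuous 0 hv), integral_congr_ae (gauss_log hv),
    integral_sub (integrable_const _) ((gauss_sq_int v).div_const _), integral_div, gauss_sq]
  have hv' : (v : ℝ) ≠ 0 := by exact_mod_cast hv
  simp only [integral_const, probReal_univ, smul_eq_mul, one_mul]
  field_simp
  ring

lemma gauss_cv {n : ℕ} (v : Fin n → NNReal) (S : Finset (Fin n)) :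
    cv (fun i => gaussianReal 0 (v i)) S = gaussianReal 0 (∑ i ∈ S, v i) := by
  induction S using Finset.induction_on with
  | empty => rw [cv_empty]; simp
  | insert i S hi ih =>
    rw [cv_insert _ hi, ih, gaussianReal_conv_gaussianReal, Finset.sum_insert hi, add_zero]

/-- the additive embedding of `ℝ` in `ℝ^1` -/
def oneHom : ℝ →+ (Fin 1 → ℝ) where
  toFun x := fun _ => x
  map_zero' := rfl
  map_add' _ _ := rfl

lemma oneHom_meas : Measurable oneHom := measurable_pi_lambda _ fun _ => measurable_id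

lemma oneHom_eq : (oneHom : ℝ → (Fin 1 → ℝ)) = (MeasurableEquiv.funUnique (Fin 1) ℝ).symm := by
  ext x i
  rfl

lemma one_mp : (volume : Measure ℝ).map (MeasurableEquiv.funUnique (Fin 1) ℝ).symm = volume :=
  ((volume_preserving_funUnique (Fin 1) ℝ).symm _).map_eq

lemma region_gauss {n : ℕ} (p : Fin n → ℝ) (hp : ∀ i, 0 < p i) :
    (fun S : {S : Finset (Fin n) // S.Nonempty} => ∑ i ∈ S.1, p i) ∈ EntropyPowerRegion n := by
  simp only [EntropyPowerRegion, Set.mem_iUnion]
  refine ⟨1, le_refl 1, ?_⟩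
  rw [gamma_iff]
  set c : ℝ := 2 * Real.pi * Real.exp 1 with hc
  have hc0 : 0 < c := by positivity
  set v : Fin n → NNReal := fun i => ⟨p i / c, (div_pos (hp i) hc0).le⟩ with hv
  have hvi : ∀ i, v i ≠ 0 := by
    intro i h
    have : (v i : ℝ) = 0 := by rw [h]; rfl
    exact (div_pos (hp i) hc0).ne' this
  have hvS : ∀ S : Finset (Fin n), S.Nonempty → ∑ i ∈ S, v i ≠ 0 := by
    intro S hS h
    rw [Finset.sum_eq_zero_iff] at h
    obtain ⟨i, hi⟩ := hS
    exact hvi i (h i hi)
  have hsum : ∀ S : Finset (Fin n), ((∑ i ∈ S, v i : NNReal) : ℝ) = (∑ i ∈ S, p i) / c := by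
    intro S
    rw [NNReal.coe_sum, Finset.sum_div]
    rfl
  have key : ∀ S, cv (fun i => (gaussianReal 0 (v i)).map oneHom) S =
      (gaussianReal 0 (∑ i ∈ S, v i)).map (MeasurableEquiv.funUnique (Fin 1) ℝ).symm := by
    intro S
    rw [cv_map (fun i => gaussianReal 0 (v i)) oneHom oneHom_meas, gauss_cv, oneHom_eq]
  refine ⟨fun i => (gaussianReal 0 (v i)).map oneHom, fun i =>
    Measure.isProbabilityMeasure_map oneHom_meas.aemeasurable, ?_, ?_⟩
  · intro S hS
    rw [key, finiteEntropy_eq, ← one_mp]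
    exact fe_map _ (gauss_fe (hvS S hS))
  · intro S
    rw [key]
    unfold entropyPower
    rw [diffEntropy_eq, ← one_mp, he_map, gauss_he (hvS S.1 S.2), hsum]
    have hpos : 0 < ∑ i ∈ S.1, p i := Finset.sum_pos (fun i _ => hp i) S.2
    have e1 : (2 : ℝ) / ((1 : ℕ) : ℝ) * (1 / 2 * Real.log (2 * Real.pi * ((∑ i ∈ S.1, p i) / c)) + 1 / 2) =
        Real.log (2 * Real.pi * ((∑ i ∈ S.1, p i) / c)) + 1 := by
      push_cast
      ring
    rw [e1, Real.exp_add, Real.exp_log (by positivity), hc]
    field_simp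

end Pool.Agent.H54.EP
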