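import Pool.Agent.H54.EP.Clos

/-!
# The entropy power of a sum is at least the entropy power of a summand
-/

set_option autoImplicit false

open MeasureTheory ProbabilityTheory ENNReal

namespace Pool.Agent.H54.EP

open Pool.Agent.Results.MP_04c77c_pr.NotConvex

variable {d n : ℕ}

/-- `h(X) ≤ h(X + Y)` -/
lemma mono_conv (α β : Measure (Fin d → ℝ)) [IsProbabilityMeasure α] [IsProbabilityMeasure β]
    (h1 : FiniteEntropy α) (h2 : FiniteEntropy (α ∗ β)) :
    diffEntropy α ≤ diffEntropy (α ∗ β) := by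
  set f := α.rnDeriv volume with hf
  set g := (α ∗ β).rnDeriv volume with hg
  set π := α.prod β with hπ
  have mf : Measurable f := Measure.measurable_rnDeriv _ _
  have mg : Measurable g := Measure.measurable_rnDeriv _ _
  set R : (Fin d → ℝ) × (Fin d → ℝ) → ℝ≥0∞ := fun w => g (w.1 + w.2) * (f w.1)⁻¹ with hR
  have mR : Measurable R := by fun_prop
  have hRle : ∫⁻ w, R w ∂π ≤ 1 := by
    calc ∫⁻ w, R w ∂π = ∫⁻ y, ∫⁻ x, R (x, y) ∂α ∂β := by
          rw [hπ, lintegral_prod_symm _ (by fun_prop)]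
      _ = ∫⁻ y, ∫⁻ x, f x * (g (x + y) * (f x)⁻¹) ∂volume ∂β := by
          congr 1
          ext y
          rw [← lintegral_rnDeriv_mul h1.1 (by fun_prop)]
      _ ≤ ∫⁻ y, ∫⁻ x, g (x + y) ∂volume ∂β := by
          apply lintegral_mono
          intro y
          apply lintegral_mono
          intro x
          show f x * (g (x + y) * (f x)⁻¹) ≤ g (x + y)
          calc f x * (g (x + y) * (f x)⁻¹) = g (x + y) * (f x * (f x)⁻¹) := by ring
            _ ≤ g (x + y) * 1 := by gcongr; exact ENNReal.mul_inv_le_one _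
            _ = g (x + y) := mul_one _
      _ = ∫⁻ y, (∫⁻ x, g x ∂volume) ∂β := by
          congr 1
          ext y
          exact lintegral_add_right_eq_self g y
      _ ≤ 1 := by
          rw [lintegral_const, measure_univ, mul_one, hg, Measure.lintegral_rnDeriv h2.1,
            measure_univ]
  have hRint : Integrable (fun w => (R w).toReal) π :=
    integrable_toReal_of_lintegral_ne_top mR.aemeasurable
      (ne_top_of_le_ne_top one_ne_top hRle)
  have hRint1 : ∫ w, (R w).toReal ∂π ≤ 1 := by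
    rw [integral_toReal mR.aemeasurable (ae_lt_top mR (ne_top_of_le_ne_top one_ne_top hRle))]
    exact toReal_le_of_le_ofReal zero_le_one (by simpa using hRle)
  have e1 : π.map (fun w : (Fin d → ℝ) × (Fin d → ℝ) => w.1) = α := by
    rw [hπ]
    exact Measure.fst_prod
  have e2 : π.map (fun w : (Fin d → ℝ) × (Fin d → ℝ) => w.1 + w.2) = α ∗ β := rfl
  have m1 : Measurable (fun w : (Fin d → ℝ) × (Fin d → ℝ) => w.1) := by fun_prop
  have m2 : Measurable (fun w : (Fin d → ℝ) × (Fin d → ℝ) => w.1 + w.2) := by fun_prop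
  have I1 := integrable_log (ν := volume) (P := π) m1 (by rw [e1]; exact h1.1)
    (by rw [e1]; exact h1.2)
  have I2 := integrable_log (ν := volume) (P := π) m2 (by rw [e2]; exact h2.1)
    (by rw [e2]; exact h2.2)
  have J1 := integral_log (ν := volume) (P := π) m1 (by rw [e1]; exact h1.1)
  have J2 := integral_log (ν := volume) (P := π) m2 (by rw [e2]; exact h2.1)
  have P1 := pos_ae (ν := volume) (P := π) m1 (by rw [e1]; exact h1.1)
  have P2 := pos_ae (ν := volume) (P := π) m2 (by rw [e2]; exact h2.1)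
  rw [e1] at I1 J1 P1
  rw [e2] at I2 J2 P2
  rw [← hf] at I1 J1 P1
  rw [← hg] at I2 J2 P2
  have hle : ∀ᵐ w ∂π, Real.log (g (w.1 + w.2)).toReal - Real.log (f w.1).toReal ≤
      (R w).toReal - 1 := by
    filter_upwards [P1, P2] with w a b
    have a' := toReal_pos a.1.ne' a.2.ne
    have b' := toReal_pos b.1.ne' b.2.ne
    have hRw : (R w).toReal = (g (w.1 + w.2)).toReal * (f w.1).toReal⁻¹ := by
      simp [hR, toReal_mul, toReal_inv]
    have hpos : 0 < (R w).toReal := by rw [hRw]; positivity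
    have hlog : Real.log (R w).toReal = Real.log (g (w.1 + w.2)).toReal -
        Real.log (f w.1).toReal := by
      rw [hRw, Real.log_mul (by positivity) (by positivity), Real.log_inv]
      ring
    rw [← hlog]
    exact Real.log_le_sub_one_of_pos hpos
  have hint := integral_mono_ae (I2.sub I1) (hRint.sub (integrable_const (1 : ℝ))) hle
  rw [integral_sub' I2 I1, integral_sub' hRint (integrable_const _), J1, J2] at hint
  simp only [integral_const, probReal_univ, smul_eq_mul, mul_one] at hint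
  unfold diffEntropy
  rw [← hf, ← hg]
  linarith

section cvu
variable {E : Type*} [MeasurableSpace E] [AddCommMonoid E] [MeasurableAdd₂ E]

lemma cv_union (μ : Fin n → Measure E) [∀ i, IsProbabilityMeasure (μ i)] {S T : Finset (Fin n)}
    (h : Disjoint S T) : cv μ (S ∪ T) = cv μ S ∗ cv μ T := by
  induction S using Finset.induction_on with
  | empty => rw [cv_empty, Finset.empty_union, Measure.dirac_zero_conv]
  | insert i S hi ih =>
    rw [Finset.disjoint_insert_left] at h
    have hi' : i ∉ S ∪ T := by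
      rw [Finset.mem_union]
      push Not
      exact ⟨hi, h.1⟩
    rw [Finset.insert_union, cv_insert _ hi', ih h.2, cv_insert _ hi, Measure.conv_assoc]

end cvu

lemma ent_mono {μ : Fin n → Measure (Fin d → ℝ)} (hμ : ∀ i, IsProbabilityMeasure (μ i))
    (hfin : ∀ S : Finset (Fin n), S.Nonempty → FiniteEntropy (cv μ S))
    {S T : Finset (Fin n)} (hS : S.Nonempty) (hST : S ⊆ T) :
    diffEntropy (cv μ S) ≤ diffEntropy (cv μ T) := by
  have e : T = S ∪ (T \ S) := (Finset.union_sdiff_of_subset hST).symm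
  have h2 := hfin T (hS.mono hST)
  rw [e, cv_union μ Finset.disjoint_sdiff] at h2 ⊢
  exact mono_conv _ _ (hfin S hS) h2

lemma ent_sub {μ : Fin n → Measure (Fin d → ℝ)} (hμ : ∀ i, IsProbabilityMeasure (μ i))
    (hfin : ∀ S : Finset (Fin n), S.Nonempty → FiniteEntropy (cv μ S))
    {S T : Finset (Fin n)} (hST : (S ∩ T).Nonempty) :
    diffEntropy (cv μ (S ∪ T)) + diffEntropy (cv μ (S ∩ T)) ≤
      diffEntropy (cv μ S) + diffEntropy (cv μ T) := by
  rcases (S \ T).eq_empty_or_nonempty with h | hA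
  · have h' : S ⊆ T := Finset.sdiff_eq_empty_iff_subset.1 h
    rw [Finset.union_eq_right.2 h', Finset.inter_eq_left.2 h', add_comm]
  rcases (T \ S).eq_empty_or_nonempty with h | hB
  · have h' : T ⊆ S := Finset.sdiff_eq_empty_iff_subset.1 h
    rw [Finset.union_eq_left.2 h', Finset.inter_eq_right.2 h']
  have d1 : Disjoint (S \ T) (S ∩ T) := by
    rw [Finset.disjoint_left]
    intro x hx hx'
    rw [Finset.mem_sdiff] at hx
    rw [Finset.mem_inter] at hx'
    exact hx.2 hx'.2
  have d2 : Disjoint (T \ S) (S ∩ T) := by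
    rw [Finset.disjoint_left]
    intro x hx hx'
    rw [Finset.mem_sdiff] at hx
    rw [Finset.mem_inter] at hx'
    exact hx.2 hx'.1
  have d3 : Disjoint (S \ T) ((T \ S) ∪ (S ∩ T)) := by
    rw [Finset.disjoint_union_right]
    refine ⟨?_, d1⟩
    rw [Finset.disjoint_left]
    intro x hx hx'
    rw [Finset.mem_sdiff] at hx hx'
    exact hx.2 hx'.1
  have eS : S = (S \ T) ∪ (S ∩ T) := (Finset.sdiff_union_inter S T).symm
  have eT : T = (T \ S) ∪ (S ∩ T) := by
    rw [Finset.inter_comm]
    exact (Finset.sdiff_union_inter T S).symm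
  have eU : S ∪ T = (S \ T) ∪ ((T \ S) ∪ (S ∩ T)) := by
    ext x
    simp only [Finset.mem_union, Finset.mem_sdiff, Finset.mem_inter]
    tauto
  have c1 : cv μ S = cv μ (S \ T) ∗ cv μ (S ∩ T) := by
    rw [← cv_union μ d1, ← eS]
  have c2 : cv μ T = cv μ (T \ S) ∗ cv μ (S ∩ T) := by
    rw [← cv_union μ d2, ← eT]
  have c3 : cv μ (S ∪ T) = cv μ (S \ T) ∗ (cv μ (T \ S) ∗ cv μ (S ∩ T)) := by
    rw [← cv_union μ d2, ← cv_union μ d3, ← eU]
  have hSne : S.Nonempty := hA.mono Finset.sdiff_subset
  have hTne : T.Nonempty := hB.mono Finset.sdiff_subset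
  have key := submod (cv μ (S \ T)) (cv μ (T \ S)) (cv μ (S ∩ T)) (hfin _ hA).1 (hfin _ hB).1
    (hfin _ hST) (by rw [← c1]; exact hfin _ hSne) (by rw [← c2]; exact hfin _ hTne)
    (by rw [← c3]; exact hfin _ (hSne.mono Finset.subset_union_left))
  rw [c3, c1, c2]
  exact key

end Pool.Agent.H54.EP
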