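import Pool.Agent.H54.EP.Outer

/-!
# Multiplication of the closure of `Γ(3)` by multiplicative polymatroids
-/

set_option autoImplicit false

open MeasureTheory ProbabilityTheory Filter Topology

namespace Pool.Agent.H54.EP

open Pool.Agent.Results.MP_04c77c_pr.NotConvex

/-- `l i = Λ` on `T` and `1` off `T` -/
noncomputable def cov {n : ℕ} (T : Finset (Fin n)) (Λ : ℝ) (S : Finset (Fin n)) : ℝ :=
  if (S ∩ T).Nonempty then Λ else 1

lemma sup_cov {n : ℕ} (T : Finset (Fin n)) {Λ : ℝ} (hΛ : 1 ≤ Λ) (S : Finset (Fin n))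
    (hS : S.Nonempty) : S.sup' hS (fun i => if i ∈ T then Λ else 1) = cov T Λ S := by
  unfold cov
  split_ifs with h
  · apply le_antisymm
    · apply Finset.sup'_le
      intro i _
      split_ifs
      · exact le_refl _
      · exact hΛ
    · obtain ⟨i, hi⟩ := h
      rw [Finset.mem_inter] at hi
      have := Finset.le_sup' (fun i => if i ∈ T then Λ else 1) hi.1
      rw [if_pos hi.2] at this
      exact this
  · apply le_antisymm
    · apply Finset.sup'_le
      intro i hi
      rw [if_neg]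
      intro hT
      exact h ⟨i, Finset.mem_inter.2 ⟨hi, hT⟩⟩
    · obtain ⟨i, hi⟩ := hS
      have := Finset.le_sup' (fun i => if i ∈ T then Λ else 1) hi
      rw [if_neg (fun hT => h ⟨i, Finset.mem_inter.2 ⟨hi, hT⟩⟩)] at this
      exact this

lemma clos_cov {n : ℕ} {v : {S : Finset (Fin n) // S.Nonempty} → ℝ}
    (hv : v ∈ closure (EntropyPowerRegion n)) (T : Finset (Fin n)) {Λ : ℝ} (hΛ : 1 ≤ Λ) :
    (fun S : {S : Finset (Fin n) // S.Nonempty} => v S * cov T Λ S.1) ∈
      closure (EntropyPowerRegion n) := by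
  have h := clos_max hv (fun i => if i ∈ T then Λ else 1) (fun i => by
    split_ifs
    · linarith
    · exact one_pos)
  convert h using 2
  rw [sup_cov T hΛ]

lemma clos_const {n : ℕ} {v : {S : Finset (Fin n) // S.Nonempty} → ℝ}
    (hv : v ∈ closure (EntropyPowerRegion n)) {κ : ℝ} (hκ : 0 < κ) :
    (fun S : {S : Finset (Fin n) // S.Nonempty} => v S * κ) ∈
      closure (EntropyPowerRegion n) := by
  have h := clos_max hv (fun _ => κ) (fun _ => hκ)
  convert h using 2
  rw [Finset.sup'_const]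

/-- the seven nonempty subsets -/
abbrev A0 : {S : Finset (Fin 3) // S.Nonempty} := ⟨{0}, by simp⟩
/-- second -/
abbrev A1 : {S : Finset (Fin 3) // S.Nonempty} := ⟨{1}, by simp⟩
/-- third -/
abbrev A2 : {S : Finset (Fin 3) // S.Nonempty} := ⟨{2}, by simp⟩
/-- first pair -/
abbrev B01 : {S : Finset (Fin 3) // S.Nonempty} := ⟨{0, 1}, by simp⟩
/-- second pair -/
abbrev B02 : {S : Finset (Fin 3) // S.Nonempty} := ⟨{0, 2}, by simp⟩
/-- third pair -/
abbrev B12 : {S : Finset (Fin 3) // S.Nonempty} := ⟨{1, 2}, by simp⟩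
/-- everything -/
abbrev C3 : {S : Finset (Fin 3) // S.Nonempty} := ⟨{0, 1, 2}, by simp⟩

lemma seven' : ∀ S : Finset (Fin 3), S.Nonempty → S = {0} ∨ S = {1} ∨ S = {2} ∨ S = {0, 1} ∨
    S = {0, 2} ∨ S = {1, 2} ∨ S = {0, 1, 2} := by decide

lemma seven (S : {S : Finset (Fin 3) // S.Nonempty}) : S = A0 ∨ S = A1 ∨ S = A2 ∨ S = B01 ∨
    S = B02 ∨ S = B12 ∨ S = C3 := by
  rcases seven' S.1 S.2 with h | h | h | h | h | h | h
  · exact Or.inl (Subtype.ext h)
  · exact Or.inr (Or.inl (Subtype.ext h))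
  · exact Or.inr (Or.inr (Or.inl (Subtype.ext h)))
  · exact Or.inr (Or.inr (Or.inr (Or.inl (Subtype.ext h))))
  · exact Or.inr (Or.inr (Or.inr (Or.inr (Or.inl (Subtype.ext h)))))
  · exact Or.inr (Or.inr (Or.inr (Or.inr (Or.inr (Or.inl (Subtype.ext h))))))
  · exact Or.inr (Or.inr (Or.inr (Or.inr (Or.inr (Or.inr (Subtype.ext h))))))

/-- the explicit inequalities -/
structure Ineq (μ : {S : Finset (Fin 3) // S.Nonempty} → ℝ) : Prop where
  h1 : μ B01 ≤ μ C3
  h2 : μ B02 ≤ μ C3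
  h3 : μ B12 ≤ μ C3
  h4 : μ C3 * μ A0 ≤ μ B01 * μ B02
  h5 : μ C3 * μ A1 ≤ μ B01 * μ B12
  h6 : μ C3 * μ A2 ≤ μ B02 * μ B12

/-- positive case -/
lemma stab_pos {μ v : {S : Finset (Fin 3) // S.Nonempty} → ℝ} (hpos : ∀ S, 0 < μ S)
    (h : Ineq μ) (hv : v ∈ closure (EntropyPowerRegion 3)) :
    (fun S => v S * μ S) ∈ closure (EntropyPowerRegion 3) := by
  have a := hpos A0
  have b := hpos A1
  have c := hpos A2
  have x := hpos B01
  have y := hpos B02
  have z := hpos B12
  have t := hpos C3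
  have k1 := clos_cov hv {0} (Λ := μ C3 / μ B12) ((one_le_div z).2 h.h3)
  have k2 := clos_cov k1 {1} (Λ := μ C3 / μ B02) ((one_le_div y).2 h.h2)
  have k3 := clos_cov k2 {2} (Λ := μ C3 / μ B01) ((one_le_div x).2 h.h1)
  have k4 := clos_cov k3 {0, 1} (Λ := μ B02 * μ B12 / (μ C3 * μ A2))
    ((one_le_div (mul_pos t c)).2 h.h6)
  have k5 := clos_cov k4 {0, 2} (Λ := μ B01 * μ B12 / (μ C3 * μ A1))
    ((one_le_div (mul_pos t b)).2 h.h5)
  have k6 := clos_cov k5 {1, 2} (Λ := μ B01 * μ B02 / (μ C3 * μ A0))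
    ((one_le_div (mul_pos t a)).2 h.h4)
  have k7 := clos_const k6 (κ := μ A0 * μ A1 * μ A2 * μ C3 / (μ B01 * μ B02 * μ B12))
    (by positivity)
  convert k7 using 1
  funext S
  simp only [mul_assoc (v S)]
  congr 1
  rcases seven S with h | h | h | h | h | h | h <;> subst h
  · have c1 : cov {0} (μ C3 / μ B12) ({0} : Finset (Fin 3)) = μ C3 / μ B12 := if_pos (by decide)
    have c2 : cov {1} (μ C3 / μ B02) ({0} : Finset (Fin 3)) = 1 := if_neg (by decide)
    have c3 : cov {2} (μ C3 / μ B01) ({0} : Finset (Fin 3)) = 1 := if_neg (by decide)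
    have c4 : cov {0, 1} (μ B02 * μ B12 / (μ C3 * μ A2)) ({0} : Finset (Fin 3)) = _ :=
      if_pos (by decide)
    have c5 : cov {0, 2} (μ B01 * μ B12 / (μ C3 * μ A1)) ({0} : Finset (Fin 3)) = _ :=
      if_pos (by decide)
    have c6 : cov {1, 2} (μ B01 * μ B02 / (μ C3 * μ A0)) ({0} : Finset (Fin 3)) = 1 :=
      if_neg (by decide)
    rw [c1, c2, c3, c4, c5, c6]
    field_simp
  · have c1 : cov {0} (μ C3 / μ B12) ({1} : Finset (Fin 3)) = 1 := if_neg (by decide)
    have c2 : cov {1} (μ C3 / μ B02) ({1} : Finset (Fin 3)) = _ := if_pos (by decide)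
    have c3 : cov {2} (μ C3 / μ B01) ({1} : Finset (Fin 3)) = 1 := if_neg (by decide)
    have c4 : cov {0, 1} (μ B02 * μ B12 / (μ C3 * μ A2)) ({1} : Finset (Fin 3)) = _ :=
      if_pos (by decide)
    have c5 : cov {0, 2} (μ B01 * μ B12 / (μ C3 * μ A1)) ({1} : Finset (Fin 3)) = 1 :=
      if_neg (by decide)
    have c6 : cov {1, 2} (μ B01 * μ B02 / (μ C3 * μ A0)) ({1} : Finset (Fin 3)) = _ :=
      if_pos (by decide)
    rw [c1, c2, c3, c4, c5, c6]
    field_simp
  · have c1 : cov {0} (μ C3 / μ B12) ({2} : Finset (Fin 3)) = 1 := if_neg (by decide)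
    have c2 : cov {1} (μ C3 / μ B02) ({2} : Finset (Fin 3)) = 1 := if_neg (by decide)
    have c3 : cov {2} (μ C3 / μ B01) ({2} : Finset (Fin 3)) = _ := if_pos (by decide)
    have c4 : cov {0, 1} (μ B02 * μ B12 / (μ C3 * μ A2)) ({2} : Finset (Fin 3)) = 1 :=
      if_neg (by decide)
    have c5 : cov {0, 2} (μ B01 * μ B12 / (μ C3 * μ A1)) ({2} : Finset (Fin 3)) = _ :=
      if_pos (by decide)
    have c6 : cov {1, 2} (μ B01 * μ B02 / (μ C3 * μ A0)) ({2} : Finset (Fin 3)) = _ :=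
      if_pos (by decide)
    rw [c1, c2, c3, c4, c5, c6]
    field_simp
  · have c1 : cov {0} (μ C3 / μ B12) ({0, 1} : Finset (Fin 3)) = _ := if_pos (by decide)
    have c2 : cov {1} (μ C3 / μ B02) ({0, 1} : Finset (Fin 3)) = _ := if_pos (by decide)
    have c3 : cov {2} (μ C3 / μ B01) ({0, 1} : Finset (Fin 3)) = 1 := if_neg (by decide)
    have c4 : cov {0, 1} (μ B02 * μ B12 / (μ C3 * μ A2)) ({0, 1} : Finset (Fin 3)) = _ :=
      if_pos (by decide)
    have c5 : cov {0, 2} (μ B01 * μ B12 / (μ C3 * μ A1)) ({0, 1} : Finset (Fin 3)) = _ :=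
      if_pos (by decide)
    have c6 : cov {1, 2} (μ B01 * μ B02 / (μ C3 * μ A0)) ({0, 1} : Finset (Fin 3)) = _ :=
      if_pos (by decide)
    rw [c1, c2, c3, c4, c5, c6]
    field_simp
  · have c1 : cov {0} (μ C3 / μ B12) ({0, 2} : Finset (Fin 3)) = _ := if_pos (by decide)
    have c2 : cov {1} (μ C3 / μ B02) ({0, 2} : Finset (Fin 3)) = 1 := if_neg (by decide)
    have c3 : cov {2} (μ C3 / μ B01) ({0, 2} : Finset (Fin 3)) = _ := if_pos (by decide)
    have c4 : cov {0, 1} (μ B02 * μ B12 / (μ C3 * μ A2)) ({0, 2} : Finset (Fin 3)) = _ :=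
      if_pos (by decide)
    have c5 : cov {0, 2} (μ B01 * μ B12 / (μ C3 * μ A1)) ({0, 2} : Finset (Fin 3)) = _ :=
      if_pos (by decide)
    have c6 : cov {1, 2} (μ B01 * μ B02 / (μ C3 * μ A0)) ({0, 2} : Finset (Fin 3)) = _ :=
      if_pos (by decide)
    rw [c1, c2, c3, c4, c5, c6]
    field_simp
  · have c1 : cov {0} (μ C3 / μ B12) ({1, 2} : Finset (Fin 3)) = 1 := if_neg (by decide)
    have c2 : cov {1} (μ C3 / μ B02) ({1, 2} : Finset (Fin 3)) = _ := if_pos (by decide)
    have c3 : cov {2} (μ C3 / μ B01) ({1, 2} : Finset (Fin 3)) = _ := if_pos (by decide)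
    have c4 : cov {0, 1} (μ B02 * μ B12 / (μ C3 * μ A2)) ({1, 2} : Finset (Fin 3)) = _ :=
      if_pos (by decide)
    have c5 : cov {0, 2} (μ B01 * μ B12 / (μ C3 * μ A1)) ({1, 2} : Finset (Fin 3)) = _ :=
      if_pos (by decide)
    have c6 : cov {1, 2} (μ B01 * μ B02 / (μ C3 * μ A0)) ({1, 2} : Finset (Fin 3)) = _ :=
      if_pos (by decide)
    rw [c1, c2, c3, c4, c5, c6]
    field_simp
  · have c1 : cov {0} (μ C3 / μ B12) ({0, 1, 2} : Finset (Fin 3)) = _ := if_pos (by decide)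
    have c2 : cov {1} (μ C3 / μ B02) ({0, 1, 2} : Finset (Fin 3)) = _ := if_pos (by decide)
    have c3 : cov {2} (μ C3 / μ B01) ({0, 1, 2} : Finset (Fin 3)) = _ := if_pos (by decide)
    have c4 : cov {0, 1} (μ B02 * μ B12 / (μ C3 * μ A2)) ({0, 1, 2} : Finset (Fin 3)) = _ :=
      if_pos (by decide)
    have c5 : cov {0, 2} (μ B01 * μ B12 / (μ C3 * μ A1)) ({0, 1, 2} : Finset (Fin 3)) = _ :=
      if_pos (by decide)
    have c6 : cov {1, 2} (μ B01 * μ B02 / (μ C3 * μ A0)) ({0, 1, 2} : Finset (Fin 3)) = _ :=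
      if_pos (by decide)
    rw [c1, c2, c3, c4, c5, c6]
    field_simp

/-- the general case -/
lemma stab {μ v : {S : Finset (Fin 3) // S.Nonempty} → ℝ} (hnn : ∀ S, 0 ≤ μ S)
    (hm : ∀ S T : {S : Finset (Fin 3) // S.Nonempty}, S.1 ⊆ T.1 → μ S ≤ μ T)
    (h : Ineq μ) (hv : v ∈ closure (EntropyPowerRegion 3)) :
    (fun S => v S * μ S) ∈ closure (EntropyPowerRegion 3) := by
  rcases (hnn C3).eq_or_lt with ht | ht
  · -- everything vanishes
    have hz : ∀ S, μ S = 0 := by
      intro S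
      have hS : S.1 ⊆ C3.1 := by
        intro i _
        fin_cases i <;> simp
      exact le_antisymm ((hm S C3 hS).trans ht.symm.le) (hnn S)
    refine isClosed_closure.mem_of_tendsto (b := atTop)
      (f := fun m : ℕ => (fun S : {S : Finset (Fin 3) // S.Nonempty} => v S * (1 / ((m : ℝ) + 1)))) ?_ ?_
    · rw [tendsto_pi_nhds]
      intro S
      rw [hz S]
      exact tendsto_one_div_add_atTop_nhds_zero_nat.const_mul (v S)
    · exact Eventually.of_forall fun m => clos_const hv (by positivity)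
  · set δ : ℕ → ℝ := fun m => μ C3 * (1 / ((m : ℝ) + 1)) with hδ
    have hδ0 : ∀ m, 0 < δ m := fun m => by simp only [hδ]; positivity
    have hδ1 : ∀ m, δ m ≤ μ C3 := by
      intro m
      simp only [hδ]
      have h1 : 1 / ((m : ℝ) + 1) ≤ 1 := by
        rw [div_le_one (by positivity)]
        have : (0 : ℝ) ≤ m := Nat.cast_nonneg m
        linarith
      calc μ C3 * (1 / ((m : ℝ) + 1)) ≤ μ C3 * 1 := mul_le_mul_of_nonneg_left h1 ht.le
        _ = μ C3 := mul_one _
    have hδlim : Tendsto δ atTop (𝓝 0) := by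
      have := (tendsto_one_div_add_atTop_nhds_zero_nat (𝕜 := ℝ)).const_mul (μ C3)
      rw [mul_zero] at this
      exact this
    set w : ℕ → {S : Finset (Fin 3) // S.Nonempty} → ℝ := fun m S =>
      if S.1.card = 1 then max (μ S) (δ m ^ 2 / μ C3)
      else if S.1.card = 2 then max (μ S) (δ m) else μ S with hw
    have w0 : ∀ m, w m A0 = max (μ A0) (δ m ^ 2 / μ C3) := fun m => rfl
    have w1 : ∀ m, w m A1 = max (μ A1) (δ m ^ 2 / μ C3) := fun m => rfl
    have w2 : ∀ m, w m A2 = max (μ A2) (δ m ^ 2 / μ C3) := fun m => rfl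
    have w01 : ∀ m, w m B01 = max (μ B01) (δ m) := fun m => rfl
    have w02 : ∀ m, w m B02 = max (μ B02) (δ m) := fun m => rfl
    have w12 : ∀ m, w m B12 = max (μ B12) (δ m) := fun m => rfl
    have w3 : ∀ m, w m C3 = μ C3 := fun m => rfl
    have key : ∀ (m : ℕ) (a x y : ℝ), 0 ≤ x → 0 ≤ y → μ C3 * a ≤ x * y →
        μ C3 * max a (δ m ^ 2 / μ C3) ≤ max x (δ m) * max y (δ m) := by
      intro m a x y hx hy haxy
      rw [mul_max_of_nonneg _ _ ht.le]
      apply max_le
      · exact haxy.trans (mul_le_mul (le_max_left _ _) (le_max_left _ _) hy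
          (hx.trans (le_max_left _ _)))
      · rw [mul_div_cancel₀ _ ht.ne', sq]
        exact mul_le_mul (le_max_right _ _) (le_max_right _ _) (hδ0 m).le
          (hx.trans (le_max_left _ _))
    have hin : ∀ m, Ineq (w m) := by
      intro m
      refine ⟨?_, ?_, ?_, ?_, ?_, ?_⟩
      · rw [w01, w3]
        exact max_le h.h1 (hδ1 m)
      · rw [w02, w3]
        exact max_le h.h2 (hδ1 m)
      · rw [w12, w3]
        exact max_le h.h3 (hδ1 m)
      · rw [w3, w0, w01, w02]
        exact key m _ _ _ (hnn _) (hnn _) h.h4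
      · rw [w3, w1, w01, w12]
        exact key m _ _ _ (hnn _) (hnn _) h.h5
      · rw [w3, w2, w02, w12]
        exact key m _ _ _ (hnn _) (hnn _) h.h6
    have hwpos : ∀ m S, 0 < w m S := by
      intro m S
      have d2 : 0 < δ m ^ 2 / μ C3 := div_pos (pow_pos (hδ0 m) 2) ht
      rcases seven S with h | h | h | h | h | h | h <;> subst h
      · rw [w0]; exact lt_max_of_lt_right d2
      · rw [w1]; exact lt_max_of_lt_right d2
      · rw [w2]; exact lt_max_of_lt_right d2
      · rw [w01]; exact lt_max_of_lt_right (hδ0 m)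
      · rw [w02]; exact lt_max_of_lt_right (hδ0 m)
      · rw [w12]; exact lt_max_of_lt_right (hδ0 m)
      · rw [w3]; exact ht
    have hlim : ∀ S, Tendsto (fun m => w m S) atTop (𝓝 (μ S)) := by
      intro S
      have l1 : Tendsto (fun m => max (μ S) (δ m ^ 2 / μ C3)) atTop (𝓝 (μ S)) := by
        have h1 : Tendsto (fun m => δ m ^ 2 / μ C3) atTop (𝓝 (0 ^ 2 / μ C3)) :=
          (hδlim.pow 2).div_const _
        have h2 := (tendsto_const_nhds (x := μ S)).max h1
        have e : max (μ S) (0 ^ 2 / μ C3) = μ S := by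
          rw [zero_pow two_ne_zero, zero_div]
          exact max_eq_left (hnn S)
        rw [e] at h2
        exact h2
      have l2 : Tendsto (fun m => max (μ S) (δ m)) atTop (𝓝 (μ S)) := by
        have h2 := (tendsto_const_nhds (x := μ S)).max hδlim
        rw [max_eq_left (hnn S)] at h2
        exact h2
      rcases seven S with h | h | h | h | h | h | h <;> subst h
      · exact l1
      · exact l1
      · exact l1
      · exact l2
      · exact l2
      · exact l2
      · exact tendsto_const_nhds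
    refine isClosed_closure.mem_of_tendsto (b := atTop)
      (f := fun m : ℕ => (fun S : {S : Finset (Fin 3) // S.Nonempty} => v S * w m S)) ?_ ?_
    · rw [tendsto_pi_nhds]
      intro S
      exact (hlim S).const_mul (v S)
    · exact Eventually.of_forall fun m => stab_pos (hwpos m) (hin m) hv

end Pool.Agent.H54.EP
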